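import Mathlib

/-!
The odd point lemma: a commutative algebra acting on a vector space of odd dimension has a quotient
field of odd degree over the base field, through which the annihilator goes to zero.
-/

namespace Pool.Agent.Helper5.OS

open Matrix

theorem exists_odd_maximal {k : Type*} {A : Type*} [Field k] [CommRing A] [Algebra k A] :
    ∀ (N : ℕ) (V : Type*) [AddCommGroup V] [Module k V] [Module A V] [IsScalarTower k A V]
      [FiniteDimensional k V], Module.finrank k V ≤ N → Odd (Module.finrank k V) →
      ∃ m : Ideal A, m.IsMaximal ∧ Odd (Module.finrank k (A ⧸ m)) ∧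
        Module.annihilator A V ≤ m := by
  intro N
  induction N with
  | zero =>
    intro V _ _ _ _ _ hN ho
    have : Module.finrank k V = 0 := by omega
    rw [this] at ho
    exact absurd ho (by decide)
  | succ N ih =>
    intro V _ _ _ _ _ hN ho
    have hV : Nontrivial V := by
      apply Module.nontrivial_of_finrank_pos (R := k)
      exact ho.pos
    have : IsNoetherian k V := inferInstance
    have : IsNoetherian A V := isNoetherian_of_tower k inferInstance
    obtain ⟨W, hW⟩ : ∃ W : Submodule A V, IsCoatom W := by
      obtain h | ⟨W, hW, _⟩ := eq_top_or_exists_le_coatom (⊥ : Submodule A V)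
      · exact absurd h bot_ne_top
      · exact ⟨W, hW⟩
    have hsimple : IsSimpleModule A (V ⧸ W) := isSimpleModule_iff_isCoatom.mpr hW
    have hsum : Module.finrank k (V ⧸ W) + Module.finrank k W = Module.finrank k V :=
      Submodule.finrank_quotient_add_finrank (W.restrictScalars k)
    have hfW : FiniteDimensional k W :=
      inferInstanceAs (FiniteDimensional k (W.restrictScalars k))
    by_cases hWo : Odd (Module.finrank k W)
    · have hlt : Module.finrank k (V ⧸ W) ≠ 0 := by
        intro h0
        have : Nontrivial (V ⧸ W) := IsSimpleModule.nontrivial A _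
        have := Module.finrank_pos (R := k) (M := V ⧸ W)
        omega
      obtain ⟨m, hm, hmo, hann⟩ := ih W (by omega) hWo
      refine ⟨m, hm, hmo, le_trans ?_ hann⟩
      intro a ha
      rw [Module.mem_annihilator] at ha ⊢
      intro w
      apply Subtype.ext
      simpa using ha w
    · have hQo : Odd (Module.finrank k (V ⧸ W)) := by
        rcases Nat.even_or_odd (Module.finrank k W) with h | h
        · rw [← hsum] at ho
          exact (Nat.odd_add.mp ho).mpr h
        · exact absurd h hWo
      obtain ⟨m, hm, ⟨e⟩⟩ := isSimpleModule_iff_quot_maximal.mp hsimple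
      refine ⟨m, hm, ?_, ?_⟩
      · have : Module.finrank k (V ⧸ W) = Module.finrank k (A ⧸ m) :=
          LinearEquiv.finrank_eq (e.restrictScalars k)
        rw [← this]
        exact hQo
      · intro a ha
        rw [Module.mem_annihilator] at ha
        have h1 : ∀ x : V ⧸ W, a • x = 0 := by
          intro x
          obtain ⟨v, rfl⟩ := Submodule.Quotient.mk_surjective W x
          rw [← Submodule.Quotient.mk_smul, ha v, Submodule.Quotient.mk_zero]
        have h2 : a • (1 : A ⧸ m) = 0 := by
          have := congrArg e (h1 (e.symm 1))
          rw [map_smul, map_zero, LinearEquiv.apply_symm_apply] at this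
          exact this
        rw [Algebra.smul_def, mul_one] at h2
        exact Ideal.Quotient.eq_zero_iff_mem.mp h2

/-- Odd point lemma, in the form of a homomorphism to a field of odd degree. -/
theorem exists_odd_field {k A V : Type*} [Field k] [CommRing A] [Algebra k A]
    [AddCommGroup V] [Module k V] [Module A V] [IsScalarTower k A V]
    [FiniteDimensional k V] (ho : Odd (Module.finrank k V)) :
    ∃ (m : Ideal A) (_ : m.IsMaximal), FiniteDimensional k (A ⧸ m) ∧
      Odd (Module.finrank k (A ⧸ m)) ∧ ∀ a ∈ Module.annihilator A V, Ideal.Quotient.mk m a = 0 := by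
  obtain ⟨m, hm, hmo, hann⟩ := exists_odd_maximal (k := k) (A := A) (Module.finrank k V) V le_rfl ho
  refine ⟨m, hm, ?_, hmo, fun a ha => Ideal.Quotient.eq_zero_iff_mem.mpr (hann ha)⟩
  exact Module.finite_of_finrank_pos hmo.pos

end Pool.Agent.Helper5.OS
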