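import Mathlib

/-!
Springer's theorem for quadratic forms given by a matrix: a form that has a non-trivial zero over a
finite extension of odd degree has one over the base field (characteristic zero for the extension
version, no restriction for the polynomial version).
-/

namespace Pool.Agent.Helper5.OS

open Polynomial Matrix

theorem exists_odd_irreducible_factor {k : Type*} [Field k] :
    ∀ (N : ℕ) (h : k[X]), h.natDegree ≤ N → Odd h.natDegree →
      ∃ p : k[X], Irreducible p ∧ p ∣ h ∧ Odd p.natDegree := by
  intro N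
  induction N with
  | zero =>
    intro h hN ho
    have : h.natDegree = 0 := by omega
    rw [this] at ho
    exact absurd ho (by decide)
  | succ N ih =>
    intro h hN ho
    have hh0 : h ≠ 0 := by
      rintro rfl
      simp at ho
    have hnu : ¬ IsUnit h := by
      intro hu
      rw [Polynomial.natDegree_eq_zero_of_isUnit hu] at ho
      exact absurd ho (by decide)
    obtain ⟨p, hp, h', rfl⟩ := WfDvdMonoid.exists_irreducible_factor hnu hh0
    have hp0 : p ≠ 0 := hp.ne_zero
    have hh'0 : h' ≠ 0 := right_ne_zero_of_mul hh0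
    have hd : (p * h').natDegree = p.natDegree + h'.natDegree :=
      Polynomial.natDegree_mul hp0 hh'0
    by_cases hpo : Odd p.natDegree
    · exact ⟨p, hp, Dvd.intro _ rfl, hpo⟩
    · have hpe : Even p.natDegree := Nat.not_odd_iff_even.mp hpo
      have hpd : 0 < p.natDegree := Irreducible.natDegree_pos hp
      have ho' : Odd h'.natDegree := by
        rw [hd] at ho
        exact (Nat.odd_add'.mp ho).mpr hpe
      obtain ⟨p', hp', hdv, hpo'⟩ := ih h' (by omega) ho'
      exact ⟨p', hp', hdv.mul_left _, hpo'⟩

/-- Springer's theorem, polynomial version. -/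
theorem springer_poly {k : Type*} [Field k] {n : ℕ} (M : Matrix (Fin n) (Fin n) k) :
    ∀ (N : ℕ) (p : k[X]), p.natDegree ≤ N → Irreducible p → Odd p.natDegree →
      (∃ f : Fin n → k[X], (∃ i, ¬ p ∣ f i) ∧ p ∣ f ⬝ᵥ ((M.map C) *ᵥ f)) →
      ∃ x : Fin n → k, x ≠ 0 ∧ x ⬝ᵥ (M *ᵥ x) = 0 := by
  classical
  intro N
  induction N with
  | zero =>
    intro p hN _ ho
    have : p.natDegree = 0 := by omega
    rw [this] at ho
    exact absurd ho (by decide)
  | succ N ih =>
    intro p hN hp ho ⟨f, ⟨i0, hi0⟩, hdiv⟩
    by_contra hcon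
    have hcon' : ∀ x : Fin n → k, x ≠ 0 → x ⬝ᵥ (M *ᵥ x) ≠ 0 := fun x hx h0 => hcon ⟨x, hx, h0⟩
    have hp0 : p ≠ 0 := hp.ne_zero
    have hpp : Prime p := hp.prime
    -- reduce modulo p
    set r : Fin n → k[X] := fun i => f i % p with hr
    have hfr : ∀ i, f i = r i + p * (f i / p) := fun i => by
      rw [hr]; exact (EuclideanDomain.mod_add_div _ _).symm
    have hrdeg : ∀ i, (r i).degree < p.degree := fun i => Polynomial.degree_mod_lt _ hp0
    have hri0 : r i0 ≠ 0 := by
      intro h
      apply hi0
      rw [hfr i0, h, zero_add]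
      exact Dvd.intro _ rfl
    have hdivr : p ∣ r ⬝ᵥ ((M.map C) *ᵥ r) := by
      have e : f = r + p • (fun i => f i / p) := by
        funext i
        simp only [Pi.add_apply, Pi.smul_apply, smul_eq_mul]
        exact hfr i
      have : f ⬝ᵥ ((M.map C) *ᵥ f) = r ⬝ᵥ ((M.map C) *ᵥ r)
          + p * (r ⬝ᵥ ((M.map C) *ᵥ (fun i => f i / p)) + (fun i => f i / p) ⬝ᵥ ((M.map C) *ᵥ r)
            + p * ((fun i => f i / p) ⬝ᵥ ((M.map C) *ᵥ (fun i => f i / p)))) := by
        conv_lhs => rw [e]
        simp only [Matrix.mulVec_add, Matrix.mulVec_smul, dotProduct_add, add_dotProduct,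
          smul_dotProduct, dotProduct_smul, smul_eq_mul]
        ring
      rw [this] at hdiv
      exact (dvd_add_left (Dvd.intro _ rfl)).mp hdiv
    -- divide by the gcd
    set g : k[X] := Finset.univ.gcd r with hg
    have hg0 : g ≠ 0 := by
      intro h
      rw [hg, Finset.gcd_eq_zero_iff] at h
      exact hri0 (h i0 (Finset.mem_univ _))
    obtain ⟨s, hs, hs1⟩ := Finset.extract_gcd (s := Finset.univ) r ⟨i0, Finset.mem_univ _⟩
    have hrs : ∀ i, r i = g * s i := fun i => hs i (Finset.mem_univ _)
    have hgdeg : g.degree < p.degree := by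
      refine lt_of_le_of_lt ?_ (hrdeg i0)
      exact Polynomial.degree_le_of_dvd (Finset.gcd_dvd (Finset.mem_univ i0)) hri0
    have hpg : ¬ p ∣ g := fun h => absurd (Polynomial.degree_le_of_dvd h hg0) (not_le.mpr hgdeg)
    have hdivs : p ∣ s ⬝ᵥ ((M.map C) *ᵥ s) := by
      have e : r = g • s := by
        funext i
        simp only [Pi.smul_apply, smul_eq_mul]
        exact hrs i
      rw [e] at hdivr
      simp only [Matrix.mulVec_smul, smul_dotProduct, dotProduct_smul, smul_eq_mul] at hdivr
      rcases hpp.dvd_or_dvd hdivr with h | h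
      · exact absurd h hpg
      · rcases hpp.dvd_or_dvd h with h | h
        · exact absurd h hpg
        · exact h
    have hsi0 : s i0 ≠ 0 := by
      intro h
      apply hri0
      rw [hrs i0, h, mul_zero]
    have hsdeg : ∀ i, (s i).natDegree < p.natDegree := by
      intro i
      by_cases h : s i = 0
      · rw [h, Polynomial.natDegree_zero]
        exact Irreducible.natDegree_pos hp
      · have h1 : (s i).degree ≤ (r i).degree := by
          apply Polynomial.degree_le_of_dvd ⟨g, by rw [hrs i, mul_comm]⟩
          rw [hrs i]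
          exact mul_ne_zero hg0 h
        exact Polynomial.natDegree_lt_natDegree h (lt_of_le_of_lt h1 (hrdeg i))
    -- the top degree
    obtain ⟨j, _, hj⟩ := Finset.exists_max_image Finset.univ
      (fun i => (s i).natDegree) ⟨i0, Finset.mem_univ _⟩
    set m := (s j).natDegree with hm
    have hsm : ∀ i, (s i).natDegree ≤ m := fun i => hj i (Finset.mem_univ _)
    set c : Fin n → k := fun i => (s i).coeff m with hc
    have hc0 : c ≠ 0 := by
      intro h
      by_cases hm0 : m = 0
      · have h1 : c i0 = 0 := congrFun h i0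
        have h2 : (s i0).natDegree = 0 := by
          have := hsm i0
          omega
        rw [hc] at h1
        simp only [hm0] at h1
        apply hsi0
        rw [Polynomial.eq_C_of_natDegree_eq_zero h2, h1, C_0]
      · have h1 : c j = 0 := congrFun h j
        have h2 : (s j).coeff (s j).natDegree = 0 := h1
        rw [Polynomial.coeff_natDegree, Polynomial.leadingCoeff_eq_zero] at h2
        apply hm0
        rw [hm, h2, Polynomial.natDegree_zero]
    have hcoef : (s ⬝ᵥ ((M.map C) *ᵥ s)).coeff (m + m) = c ⬝ᵥ (M *ᵥ c) := by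
      simp only [dotProduct, Matrix.mulVec, Polynomial.finsetSum_coeff, Matrix.map_apply]
      refine Finset.sum_congr rfl fun i _ => ?_
      have h2 : (∑ x, C (M i x) * s x).natDegree ≤ m := by
        apply Polynomial.natDegree_sum_le_of_forall_le
        intro x _
        exact (Polynomial.natDegree_C_mul_le _ _).trans (hsm x)
      rw [Polynomial.coeff_mul_add_eq_of_natDegree_le (hsm i) h2]
      rw [Polynomial.finsetSum_coeff]
      simp only [Polynomial.coeff_C_mul]
      rfl
    have hdegle : (s ⬝ᵥ ((M.map C) *ᵥ s)).natDegree ≤ m + m := by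
      simp only [dotProduct, Matrix.mulVec, Matrix.map_apply]
      apply Polynomial.natDegree_sum_le_of_forall_le
      intro i _
      refine Polynomial.natDegree_mul_le.trans (add_le_add (hsm i) ?_)
      apply Polynomial.natDegree_sum_le_of_forall_le
      intro x _
      exact (Polynomial.natDegree_C_mul_le _ _).trans (hsm x)
    have hne : (s ⬝ᵥ ((M.map C) *ᵥ s)).coeff (m + m) ≠ 0 := by
      rw [hcoef]; exact hcon' c hc0
    have hdeg : (s ⬝ᵥ ((M.map C) *ᵥ s)).natDegree = m + m :=
      le_antisymm hdegle (Polynomial.le_natDegree_of_ne_zero hne)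
    obtain ⟨h, hh⟩ := hdivs
    have hq0 : s ⬝ᵥ ((M.map C) *ᵥ s) ≠ 0 := by
      intro h0
      rw [h0, Polynomial.coeff_zero] at hne
      exact hne rfl
    have hh0 : h ≠ 0 := by
      rintro rfl
      rw [mul_zero] at hh
      exact hq0 hh
    have hdeg2 : p.natDegree + h.natDegree = m + m := by
      rw [← hdeg, hh, Polynomial.natDegree_mul hp0 hh0]
    have hho : Odd h.natDegree := by
      rcases ho with ⟨a, ha⟩
      rcases Nat.even_or_odd h.natDegree with ⟨b, hb⟩ | hb
      · omega
      · exact hb
    have hmlt : m < p.natDegree := hsdeg j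
    have hhlt : h.natDegree < p.natDegree := by omega
    obtain ⟨p', hp', hp'h, hp'o⟩ := exists_odd_irreducible_factor h.natDegree h le_rfl hho
    have hp'le : p'.natDegree ≤ h.natDegree := Polynomial.natDegree_le_of_dvd hp'h hh0
    apply hcon
    refine ih p' (by omega) hp' hp'o ⟨s, ?_, ?_⟩
    · by_contra hall
      push Not at hall
      have : p' ∣ Finset.univ.gcd s := Finset.dvd_gcd fun i _ => hall i
      rw [hs1] at this
      exact hp'.not_isUnit (isUnit_of_dvd_one this)
    · rw [hh]
      exact hp'h.mul_left _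

/-- Springer's theorem for an odd degree extension, characteristic zero. -/
theorem springer {k L : Type*} [Field k] [CharZero k] [Field L] [Algebra k L]
    [FiniteDimensional k L] (hodd : Odd (Module.finrank k L)) {n : ℕ}
    (M : Matrix (Fin n) (Fin n) k) (v : Fin n → L) (hv : v ≠ 0)
    (h0 : v ⬝ᵥ ((M.map (algebraMap k L)) *ᵥ v) = 0) :
    ∃ x : Fin n → k, x ≠ 0 ∧ x ⬝ᵥ (M *ᵥ x) = 0 := by
  classical
  obtain ⟨α, hα⟩ := Field.exists_primitive_element k L
  have hint : IsIntegral k α := Algebra.IsIntegral.isIntegral α
  have hdeg : (minpoly k α).natDegree = Module.finrank k L := by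
    rw [← IntermediateField.adjoin.finrank hint, hα]
    exact IntermediateField.finrank_top'
  have hsurj : ∀ y : L, ∃ f : k[X], aeval α f = y := by
    intro y
    have hy : y ∈ IntermediateField.adjoin k {α} := by rw [hα]; trivial
    have h1 := IntermediateField.adjoin_simple_toSubalgebra_of_isAlgebraic
      (hint.isAlgebraic)
    have hy' : y ∈ (IntermediateField.adjoin k {α}).toSubalgebra := hy
    rw [h1] at hy'
    rw [Algebra.adjoin_singleton_eq_range_aeval] at hy'
    exact hy'
  choose f hf using hsurj
  refine springer_poly M (minpoly k α).natDegree (minpoly k α) le_rfl (minpoly.irreducible hint)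
    (by rw [hdeg]; exact hodd) ⟨fun i => f (v i), ?_, ?_⟩
  · by_contra hall
    push Not at hall
    apply hv
    funext i
    have := (minpoly.dvd_iff).mp (hall i)
    rw [hf] at this
    exact this
  · rw [minpoly.dvd_iff]
    have : aeval α ((fun i => f (v i)) ⬝ᵥ ((M.map C) *ᵥ (fun i => f (v i))))
        = v ⬝ᵥ ((M.map (algebraMap k L)) *ᵥ v) := by
      simp only [dotProduct, Matrix.mulVec, map_sum, map_mul, hf, Matrix.map_apply, aeval_C]
    rw [this, h0]

end Pool.Agent.Helper5.OS
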