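import Mathlib
import Pool.Agent.Helper5.OS.OddPoint
import Pool.Agent.Helper5.OS.Springer

/-!
From a module of odd dimension on which `w` is a square root of a quadratic form in `x` to a zero of
the quadratic form `t ^ 2 + xᵀ M x` over the base field.
-/

namespace Pool.Agent.Helper5.OS

open Matrix

/-- the matrix of `c t ^ 2 + xᵀ M x` -/
def border {k : Type*} [Field k] {n : ℕ} (c : k) (M : Matrix (Fin n) (Fin n) k) :
    Matrix (Fin (n + 1)) (Fin (n + 1)) k :=
  Matrix.of (Fin.cons (Fin.cons c 0) fun i => Fin.cons 0 (M i))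

theorem border_quad {k : Type*} [Field k] {n : ℕ} (c : k) (M : Matrix (Fin n) (Fin n) k)
    (t : k) (x : Fin n → k) :
    (Fin.cons t x : Fin (n + 1) → k) ⬝ᵥ (border c M *ᵥ (Fin.cons t x : Fin (n + 1) → k))
      = c * t ^ 2 + x ⬝ᵥ (M *ᵥ x) := by
  simp only [dotProduct, Matrix.mulVec, Fin.sum_univ_succ, border, Matrix.of_apply, Fin.cons_zero,
    Fin.cons_succ, Pi.zero_apply, zero_mul, Finset.sum_const_zero, add_zero, zero_add]
  ring

theorem border_map {k L : Type*} [Field k] [Field L] (f : k →+* L) {n : ℕ} (c : k)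
    (M : Matrix (Fin n) (Fin n) k) :
    (border c M).map f = border (f c) (M.map f) := by
  ext i j
  refine Fin.cases ?_ (fun i => ?_) i
  · refine Fin.cases ?_ (fun j => ?_) j
    · simp [border]
    · simp [border]
  · refine Fin.cases ?_ (fun j => ?_) j
    · simp [border]
    · simp [border]

/-- Springer's theorem for `t ^ 2 + xᵀ M x`. -/
theorem springer_border {k L : Type*} [Field k] [CharZero k] [Field L] [Algebra k L]
    [FiniteDimensional k L] (hodd : Odd (Module.finrank k L)) {n : ℕ} (c : k)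
    (M : Matrix (Fin n) (Fin n) k) (t : L) (x : Fin n → L) (hx : t ≠ 0 ∨ x ≠ 0)
    (h0 : algebraMap k L c * t ^ 2 + x ⬝ᵥ ((M.map (algebraMap k L)) *ᵥ x) = 0) :
    ∃ (t : k) (x : Fin n → k), (t ≠ 0 ∨ x ≠ 0) ∧ c * t ^ 2 + x ⬝ᵥ (M *ᵥ x) = 0 := by
  obtain ⟨z, hz, hz0⟩ := springer hodd (border c M) (Fin.cons t x) (by
    intro h
    rcases hx with ht | hx
    · exact ht (by simpa using congrFun h 0)
    · apply hx
      funext i
      simpa using congrFun h i.succ) (by rw [border_map, border_quad]; exact h0)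
  refine ⟨z 0, fun i => z i.succ, ?_, ?_⟩
  · by_contra hcon
    push Not at hcon
    apply hz
    funext i
    refine Fin.cases hcon.1 (fun i => ?_) i
    exact congrFun hcon.2 i
  · rw [← border_quad]
    have : (Fin.cons (z 0) (fun i => z i.succ) : Fin (n + 1) → k) = z := Fin.cons_self_tail z
    rw [this]
    exact hz0

/-- The odd point lemma with Springer's theorem: let a commutative algebra `A` over a field `k` of
characteristic zero act on a vector space `V` of odd dimension, let `w, x i` be elements of `A` such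
that `c w ^ 2 + xᵀ M x` acts as zero and the `x i` generate the unit ideal modulo the annihilator
of `V`.  Then `c t ^ 2 + xᵀ M x` has a non-trivial zero over `k`. -/
theorem isotropic_of_odd {k A V : Type*} [Field k] [CharZero k] [CommRing A] [Algebra k A]
    [AddCommGroup V] [Module k V] [Module A V] [IsScalarTower k A V]
    [FiniteDimensional k V] (ho : Odd (Module.finrank k V)) {n : ℕ} (c : k)
    (M : Matrix (Fin n) (Fin n) k) (w : A) (x : Fin n → A)
    (hw : ∀ v : V, (algebraMap k A c * w ^ 2 + x ⬝ᵥ ((M.map (algebraMap k A)) *ᵥ x)) • v = 0)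
    (b : Fin n → A) (hb : ∀ v : V, (b ⬝ᵥ x) • v = v) :
    ∃ (t : k) (x : Fin n → k), (t ≠ 0 ∨ x ≠ 0) ∧ c * t ^ 2 + x ⬝ᵥ (M *ᵥ x) = 0 := by
  obtain ⟨m, hm, hfin, hodd, hann⟩ := exists_odd_field (k := k) (A := A) (V := V) ho
  letI : Field (A ⧸ m) := Ideal.Quotient.field m
  refine springer_border (L := A ⧸ m) hodd c M (Ideal.Quotient.mk m w)
    (fun i => Ideal.Quotient.mk m (x i)) (Or.inr ?_) ?_
  · intro h
    have h1 : Ideal.Quotient.mk m (b ⬝ᵥ x - 1) = 0 := by
      apply hann
      rw [Module.mem_annihilator]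
      intro v
      rw [sub_smul, one_smul, hb, sub_self]
    rw [map_sub, map_one, dotProduct, map_sum] at h1
    have h2 : ∀ i, Ideal.Quotient.mk m (b i * x i) = 0 := by
      intro i
      rw [map_mul]
      have := congrFun h i
      simp only [Pi.zero_apply] at this
      rw [this, mul_zero]
    rw [Finset.sum_eq_zero (fun i _ => h2 i), zero_sub, neg_eq_zero] at h1
    exact one_ne_zero h1
  · have h1 := hann (algebraMap k A c * w ^ 2 + x ⬝ᵥ ((M.map (algebraMap k A)) *ᵥ x)) (by
      rw [Module.mem_annihilator]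
      exact hw)
    rw [map_add, map_mul, map_pow] at h1
    have e1 : Ideal.Quotient.mk m (algebraMap k A c) = algebraMap k (A ⧸ m) c := rfl
    have e2 : Ideal.Quotient.mk m (x ⬝ᵥ ((M.map (algebraMap k A)) *ᵥ x))
        = (fun i => Ideal.Quotient.mk m (x i)) ⬝ᵥ
          ((M.map (algebraMap k (A ⧸ m))) *ᵥ (fun i => Ideal.Quotient.mk m (x i))) := by
      simp only [dotProduct, Matrix.mulVec, map_sum, map_mul, Matrix.map_apply]
      rfl
    rw [e1, e2] at h1
    exact h1

end Pool.Agent.Helper5.OS
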