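import Mathlib
import Pool.Agent.Helper5.OS.OddIso

/-!
Commuting operators on an odd-dimensional space that satisfy a quadratic relation give a zero of the
quadratic form over the base field; the same for a level of a filtered space.
-/

namespace Pool.Agent.Helper5.OS

open Matrix

theorem isotropic_of_commuting {F V : Type*} [Field F] [CharZero F] [AddCommGroup V] [Module F V]
    [FiniteDimensional F V] (ho : Odd (Module.finrank F V)) {n : ℕ}
    (q : Matrix (Fin n) (Fin n) F) (B : Fin n → Module.End F V)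
    (hB : ∀ i j, B i * B j = B j * B i) (i0 : Fin n) (h1 : B i0 = 1)
    (hrel : ∑ i, ∑ j, q i j • (B i * B j) = 0) :
    ∃ z : Fin n → F, z ≠ 0 ∧ z ⬝ᵥ (q *ᵥ z) = 0 := by
  have hcomm : IsMulCommutative (Algebra.adjoin F (Set.range B)) :=
    Algebra.isMulCommutative_adjoin F (by
      rintro _ ⟨i, rfl⟩ _ ⟨j, rfl⟩
      exact hB i j)
  let iA : CommRing (Algebra.adjoin F (Set.range B)) :=
    { (inferInstance : Ring (Algebra.adjoin F (Set.range B))) with
      mul_comm := fun a b => hcomm.is_comm.comm a b }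
  have hmem : ∀ i, B i ∈ Algebra.adjoin F (Set.range B) := fun i =>
    Algebra.subset_adjoin ⟨i, rfl⟩
  obtain ⟨m, hm, hfin, hodd, hann⟩ :=
    exists_odd_field (k := F) (A := Algebra.adjoin F (Set.range B)) (V := V) ho
  let _ : Field (Algebra.adjoin F (Set.range B) ⧸ m) := Ideal.Quotient.field m
  set x : Fin n → Algebra.adjoin F (Set.range B) := fun i => ⟨B i, hmem i⟩ with hx
  have hx1 : x i0 = 1 := Subtype.ext h1
  have hx0 : ∑ i, ∑ j, q i j • (x i * x j) = 0 := by
    apply Subtype.ext
    simpa [hx] using hrel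
  refine springer (k := F) (L := Algebra.adjoin F (Set.range B) ⧸ m) hodd q
    (fun i => Ideal.Quotient.mk m (x i)) ?_ ?_
  · intro h
    have := congrFun h i0
    simp only [hx1, map_one, Pi.zero_apply] at this
    exact one_ne_zero this
  · have h2 := congrArg (Ideal.Quotient.mk m) hx0
    rw [map_zero] at h2
    rw [← h2]
    simp only [dotProduct, Matrix.mulVec, map_sum, Matrix.map_apply, Finset.mul_sum]
    refine Finset.sum_congr rfl fun i _ => Finset.sum_congr rfl fun j _ => ?_
    rw [Algebra.smul_def, map_mul, map_mul]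
    have : (Ideal.Quotient.mk m) ((algebraMap F (Algebra.adjoin F (Set.range B))) (q i j))
      = algebraMap F (Algebra.adjoin F (Set.range B) ⧸ m) (q i j) := rfl
    rw [this]
    ring

/-- One level: linear maps between three spaces, the first two of the same odd dimension. -/
theorem isotropic_of_level {F N N' N'' : Type*} [Field F] [CharZero F]
    [AddCommGroup N] [Module F N] [AddCommGroup N'] [Module F N'] [AddCommGroup N''] [Module F N'']
    [FiniteDimensional F N] [FiniteDimensional F N'] (ho : Odd (Module.finrank F N))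
    (he : Module.finrank F N = Module.finrank F N') {n : ℕ}
    (q : Matrix (Fin n) (Fin n) F) (a : Fin n → (N →ₗ[F] N')) (b : Fin n → (N' →ₗ[F] N''))
    (i0 : Fin n) (hai : Function.Injective (a i0)) (hbi : Function.Injective (b i0))
    (hc : ∀ i j, b i ∘ₗ a j = b j ∘ₗ a i)
    (hrel : ∑ i, ∑ j, q i j • (b i ∘ₗ a j) = 0) :
    ∃ z : Fin n → F, z ≠ 0 ∧ z ⬝ᵥ (q *ᵥ z) = 0 := by
  set e : N ≃ₗ[F] N' := LinearEquiv.ofInjectiveOfFinrankEq (a i0) hai he with hedef
  have hea : ∀ v, e v = a i0 v := fun v => rfl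
  have key : ∀ i j v, b i0 (a i0 ((e.symm.toLinearMap ∘ₗ a i) ((e.symm.toLinearMap ∘ₗ a j) v)))
      = b i (a j v) := by
    intro i j v
    simp only [LinearMap.comp_apply, LinearEquiv.coe_coe]
    rw [← hea, LinearEquiv.apply_symm_apply]
    have h1 := LinearMap.congr_fun (hc i0 i) (e.symm (a j v))
    simp only [LinearMap.comp_apply] at h1
    rw [h1, ← hea, LinearEquiv.apply_symm_apply]
  have hinj : ∀ v v' : N, b i0 (a i0 v) = b i0 (a i0 v') → v = v' :=
    fun v v' h => hai (hbi h)
  refine isotropic_of_commuting ho q (fun i => e.symm.toLinearMap ∘ₗ a i) ?_ i0 ?_ ?_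
  · intro i j
    apply LinearMap.ext
    intro v
    apply hinj
    rw [Module.End.mul_apply, Module.End.mul_apply, key, key]
    exact LinearMap.congr_fun (hc i j) v
  · apply LinearMap.ext
    intro v
    change e.symm (a i0 v) = v
    rw [← hea, LinearEquiv.symm_apply_apply]
  · apply LinearMap.ext
    intro v
    apply hinj
    have h2 := LinearMap.congr_fun hrel v
    simp only [LinearMap.sum_apply, LinearMap.smul_apply, LinearMap.comp_apply,
      LinearMap.zero_apply] at h2
    simp only [LinearMap.sum_apply, LinearMap.smul_apply, Module.End.mul_apply,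
      LinearMap.zero_apply, map_zero, map_sum, map_smul]
    rw [← h2]
    refine Finset.sum_congr rfl fun i _ => Finset.sum_congr rfl fun j _ => ?_
    rw [key]

/-- The filtered form: at two consecutive levels of `P / Z` of the same odd dimension. -/
theorem isotropic_of_filtered {F Y : Type*} [Field F] [CharZero F] [AddCommGroup Y] [Module F Y]
    (P Z : ℤ → Submodule F Y) (hZP : ∀ j, Z j ≤ P j) (hfin : ∀ j, FiniteDimensional F (P j))
    {n : ℕ} (q : Matrix (Fin n) (Fin n) F) (a : Fin n → Module.End F Y)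
    (hP : ∀ i j, ∀ y ∈ P j, a i y ∈ P (j + 1)) (hZ : ∀ i j, ∀ y ∈ Z j, a i y ∈ Z (j + 1))
    (hc : ∀ i j, a i * a j = a j * a i) (hrel : ∑ i, ∑ j, q i j • (a i * a j) = 0)
    (i0 : Fin n) (hinj : ∀ j, ∀ y ∈ P j, a i0 y ∈ Z (j + 1) → y ∈ Z j)
    (j : ℤ) (d : ℕ) (hd : Odd d)
    (h0 : Module.finrank F (P j) = Module.finrank F (Z j) + d)
    (h1 : Module.finrank F (P (j + 1)) = Module.finrank F (Z (j + 1)) + d) :
    ∃ z : Fin n → F, z ≠ 0 ∧ z ⬝ᵥ (q *ᵥ z) = 0 := by
  have hfr : ∀ j, Module.finrank F (P j ⧸ (Z j).submoduleOf (P j)) + Module.finrank F (Z j)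
      = Module.finrank F (P j) := by
    intro j
    have := hfin j
    rw [← Submodule.finrank_quotient_add_finrank ((Z j).submoduleOf (P j))]
    congr 1
    exact (LinearEquiv.finrank_eq (Submodule.submoduleOfEquivOfLe (hZP j))).symm
  have hf := hfin
  let A : ∀ (j : ℤ) (i : Fin n), (P j ⧸ (Z j).submoduleOf (P j)) →ₗ[F]
      (P (j + 1) ⧸ (Z (j + 1)).submoduleOf (P (j + 1))) := fun j i =>
    Submodule.mapQ _ _ ((a i).restrict (hP i j)) (by
      intro y hy
      rw [Submodule.mem_comap, Submodule.submoduleOf, Submodule.mem_comap]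
      exact hZ i j _ hy)
  have hA : ∀ (j : ℤ) (i : Fin n) (y : P j), A j i (Submodule.Quotient.mk y)
      = Submodule.Quotient.mk ((a i).restrict (hP i j) y) := fun j i y => rfl
  have hAi : ∀ j, Function.Injective (A j i0) := by
    intro j
    rw [injective_iff_map_eq_zero]
    intro x hx
    obtain ⟨y, rfl⟩ := Submodule.Quotient.mk_surjective _ x
    rw [hA, Submodule.Quotient.mk_eq_zero] at hx
    rw [Submodule.Quotient.mk_eq_zero]
    exact hinj j y.1 y.2 hx
  refine isotropic_of_level (N := P j ⧸ (Z j).submoduleOf (P j))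
    (N' := P (j + 1) ⧸ (Z (j + 1)).submoduleOf (P (j + 1))) ?_ ?_ q (A j) (A (j + 1)) i0
    (hAi j) (hAi (j + 1)) ?_ ?_
  · have := hfr j
    have h3 : Module.finrank F (P j ⧸ (Z j).submoduleOf (P j)) = d := by omega
    rw [h3]; exact hd
  · have := hfr j
    have := hfr (j + 1)
    omega
  · intro i k
    apply LinearMap.ext
    intro x
    obtain ⟨y, rfl⟩ := Submodule.Quotient.mk_surjective _ x
    simp only [LinearMap.comp_apply, hA]
    congr 1
    apply Subtype.ext
    exact LinearMap.congr_fun (hc i k) y.1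
  · apply LinearMap.ext
    intro x
    obtain ⟨y, rfl⟩ := Submodule.Quotient.mk_surjective _ x
    simp only [LinearMap.sum_apply, LinearMap.smul_apply, LinearMap.comp_apply, hA,
      LinearMap.zero_apply]
    have h2 := LinearMap.congr_fun hrel y.1
    simp only [LinearMap.sum_apply, LinearMap.smul_apply, Module.End.mul_apply,
      LinearMap.zero_apply] at h2
    simp only [← Submodule.Quotient.mk_smul]
    have hs : ∀ (f : Fin n → Fin n → P (j + 1 + 1)),
        ∑ i, ∑ k, (Submodule.Quotient.mk (f i k) :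
          P (j + 1 + 1) ⧸ (Z (j + 1 + 1)).submoduleOf (P (j + 1 + 1)))
          = Submodule.Quotient.mk (∑ i, ∑ k, f i k) := by
      intro f
      simp only [← Submodule.mkQ_apply, map_sum]
    rw [hs, Submodule.Quotient.mk_eq_zero]
    have : (∑ i, ∑ k, q i k • ((a i).restrict (hP i (j + 1)) ((a k).restrict (hP k j) y))) = 0 := by
      apply Subtype.ext
      rw [← Submodule.coe_subtype, map_sum]
      simp only [map_sum, map_smul]
      exact h2
    rw [this]
    exact Submodule.zero_mem _

/-- An operator that is injective from `P j / Z j` to `P (j + 1) / Z (j + 1)`. -/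
theorem finrank_le_of_filtered {F Y : Type*} [Field F] [AddCommGroup Y] [Module F Y]
    (P Z P' Z' : Submodule F Y) (hZP : Z ≤ P) (hZP' : Z' ≤ P')
    [FiniteDimensional F P] [FiniteDimensional F P'] (a : Module.End F Y)
    (hP : ∀ y ∈ P, a y ∈ P') (hZ : ∀ y ∈ Z, a y ∈ Z')
    (hinj : ∀ y ∈ P, a y ∈ Z' → y ∈ Z) :
    Module.finrank F P + Module.finrank F Z' ≤ Module.finrank F P' + Module.finrank F Z := by
  have hfr : ∀ (P Z : Submodule F Y), Z ≤ P → FiniteDimensional F P →
      Module.finrank F (P ⧸ Z.submoduleOf P) + Module.finrank F Z = Module.finrank F P := by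
    intro P Z hZP _
    rw [← Submodule.finrank_quotient_add_finrank (Z.submoduleOf P)]
    congr 1
    exact (LinearEquiv.finrank_eq (Submodule.submoduleOfEquivOfLe hZP)).symm
  let A : (P ⧸ Z.submoduleOf P) →ₗ[F] (P' ⧸ Z'.submoduleOf P') :=
    Submodule.mapQ _ _ (a.restrict hP) (by
      intro y hy
      rw [Submodule.mem_comap, Submodule.submoduleOf, Submodule.mem_comap]
      exact hZ _ hy)
  have hA : ∀ (y : P), A (Submodule.Quotient.mk y)
      = Submodule.Quotient.mk (a.restrict hP y) := fun y => rfl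
  have hAi : Function.Injective A := by
    rw [injective_iff_map_eq_zero]
    intro x hx
    obtain ⟨y, rfl⟩ := Submodule.Quotient.mk_surjective _ x
    rw [hA, Submodule.Quotient.mk_eq_zero] at hx
    rw [Submodule.Quotient.mk_eq_zero]
    exact hinj y.1 y.2 hx
  have h1 := LinearMap.finrank_le_finrank_of_injective hAi
  have h2 := hfr P Z hZP inferInstance
  have h3 := hfr P' Z' hZP' inferInstance
  omega

theorem border_sum {k A : Type*} [Field k] [Ring A] [Algebra k A] {n : ℕ} (c : k)
    (M : Matrix (Fin n) (Fin n) k) (w : A) (x : Fin n → A) :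
    ∑ i, ∑ j, border c M i j • ((Fin.cons w x : Fin (n + 1) → A) i *
      (Fin.cons w x : Fin (n + 1) → A) j) = c • (w * w) + ∑ i, ∑ j, M i j • (x i * x j) := by
  simp only [Fin.sum_univ_succ, border, Matrix.of_apply, Fin.cons_zero,
    Fin.cons_succ, Pi.zero_apply, zero_smul, Finset.sum_const_zero, add_zero, zero_add]

end Pool.Agent.Helper5.OS
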