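import Pool.Agent.Helper5.HP.Quad
import Pool.Agent.Helper29.HP.St.Irr

/-!
A quadratic form in three variables which is a square in the function field has rank at most one.
-/

namespace Pool.Agent.Helper5.OS

open MvPolynomial Matrix Pool.Agent.Helper16 Pool.Agent.Helper5.HP Pool.Agent.Helper29.HP

/-- `G = l lᵀ` if `yᵀ G y = (l y) ^ 2` -/
theorem eq_vecMulVec {n : ℕ} {G : Matrix (Fin n) (Fin n) ℂ} (hG : G.IsSymm)
    (l : (Fin n → ℂ) →ₗ[ℂ] ℂ) (h : ∀ y : Fin n → ℂ, y ⬝ᵥ G *ᵥ y = l y ^ 2) (i j : Fin n) :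
    G i j = l (Pi.single i 1) * l (Pi.single j 1) := by
  classical
  have hB : ∀ u v : Fin n → ℂ, u ⬝ᵥ G *ᵥ v = l u * l v := by
    intro u v
    have h1 := h (u + v)
    have h2 := h u
    have h3 := h v
    rw [Matrix.mulVec_add, add_dotProduct, dotProduct_add, dotProduct_add, dot_symm hG v u,
      map_add] at h1
    have h4 : (2 : ℂ) * (u ⬝ᵥ G *ᵥ v) = 2 * (l u * l v) := by linear_combination h1 - h2 - h3
    exact mul_left_cancel₀ two_ne_zero h4
  rw [← hB]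
  simp

theorem adjugate_eq_zero_of_sq {G : Matrix (Fin 3) (Fin 3) ℂ} (hG : G.IsSymm)
    (l : (Fin 3 → ℂ) →ₗ[ℂ] ℂ) (h : ∀ y : Fin 3 → ℂ, y ⬝ᵥ G *ᵥ y = l y ^ 2) :
    G.adjugate = 0 := by
  have hij := eq_vecMulVec hG l h
  rw [Matrix.adjugate_fin_three]
  ext i j
  fin_cases i <;> fin_cases j <;> simp [hij] <;> ring

/-- P1, polynomial form. -/
theorem adjugate_eq_zero_of_mul_sq {G : Matrix (Fin 3) (Fin 3) ℂ} (hG : G.IsSymm)
    (a b : MvPolynomial (Fin 3) ℂ) (hb : b ≠ 0) (h : quadp G * b ^ 2 = a ^ 2) :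
    G.adjugate = 0 := by
  have hdvd : b ∣ a := by
    have : b ^ 2 ∣ a ^ 2 := ⟨quadp G, by rw [← h, mul_comm]⟩
    exact (IsIntegrallyClosed.pow_dvd_pow_iff two_ne_zero).mp this
  obtain ⟨s, rfl⟩ := hdvd
  have hs : quadp G = s * s := by
    have h1 : quadp G * b ^ 2 = (s * s) * b ^ 2 := by rw [h]; ring
    exact mul_right_cancel₀ (pow_ne_zero 2 hb) h1
  by_cases hs0 : s = 0
  · apply adjugate_eq_zero_of_sq hG 0
    intro y
    rw [← eval_quadp, hs, hs0]
    simp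
  · obtain ⟨d, hd⟩ := hom_of_mul (f := s) (g := s) (n := 2) (by rw [← hs]; exact quadp_hom G)
      (mul_ne_zero hs0 hs0)
    have hd1 : d = 1 := by
      have h1 : (s * s).IsHomogeneous (d + d) := hd.mul hd
      have h2 : (s * s).IsHomogeneous 2 := by rw [← hs]; exact quadp_hom G
      have h3 := h1.inj_right h2 (mul_ne_zero hs0 hs0)
      omega
    subst hd1
    obtain ⟨l, hl⟩ := eq_linp_of_hom1 hd
    apply adjugate_eq_zero_of_sq hG l
    intro y
    rw [← eval_quadp, hs, hl, map_mul, eval_linp, sq]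

/-- P1: a quadratic form `yᵀ G y` which is a square in the field `K' = ℂ(y)` has rank at most
one. -/
theorem adjugate_eq_zero_of_isSquare {K' : Type*} [Field K'] [Algebra (MvPolynomial (Fin 3) ℂ) K']
    [IsFractionRing (MvPolynomial (Fin 3) ℂ) K'] {G : Matrix (Fin 3) (Fin 3) ℂ} (hG : G.IsSymm)
    (t : K') (h : algebraMap (MvPolynomial (Fin 3) ℂ) K' (quadp G) = t ^ 2) :
    G.adjugate = 0 := by
  obtain ⟨a, b, hb, rfl⟩ := IsFractionRing.div_surjective (A := MvPolynomial (Fin 3) ℂ) t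
  have hb0 : b ≠ 0 := nonZeroDivisors.ne_zero hb
  have hb0' : algebraMap (MvPolynomial (Fin 3) ℂ) K' b ≠ 0 := by
    rw [Ne, IsFractionRing.to_map_eq_zero_iff]
    exact hb0
  refine adjugate_eq_zero_of_mul_sq hG a b hb0 ?_
  apply IsFractionRing.injective (MvPolynomial (Fin 3) ℂ) K'
  rw [map_mul, map_pow, map_pow, h, div_pow, div_mul_cancel₀ _ (pow_ne_zero 2 hb0')]

end Pool.Agent.Helper5.OS
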