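import Mathlib
import Pool.Agent.Helper89.OS.St.X8
import Pool.Agent.Helper89.OS.St.X17

/-!
Algebraic part of piece X13: the base change of a filtered module over the ring of a curve with three
operators, and the section obtained from the odd point lemma.
-/

namespace Pool.Agent.Helper5.OS

open MvPolynomial Pool.Agent.Helper29.HP Module Pool.Agent.Helper89.OS

/-- the rational function field over `K` -/
abbrev EK (K : Type) [Field K] : Type := FractionRing (MvPolynomial (Fin 3) K)

section naturality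
variable {R S : Type*} [CommRing R] [CommRing S]

/-- componentwise application of a ring homomorphism -/
def mW (f : R →+* S) (p : W4 R) : W4 S := (f p.1, fun i => f (p.2 i))

theorem mW_add (f : R →+* S) (p q : W4 R) : mW f (p + q) = mW f p + mW f q := by
  refine Prod.ext ?_ (funext fun i => ?_)
  · simp [mW]
  · simp [mW]

theorem mW_zero (f : R →+* S) : mW f (0 : W4 R) = 0 := by
  refine Prod.ext ?_ (funext fun i => ?_)
  · simp [mW]
  · simp [mW]

theorem mW_smul (f : R →+* S) (t : R) (p : W4 R) : mW f (t • p) = f t • mW f p := by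
  refine Prod.ext ?_ (funext fun i => ?_)
  · simp [mW]
  · simp [mW]

theorem mW_qm (f : R →+* S) (M : Matrix (Fin 3) (Fin 3) R) (p q : W4 R) :
    mW f (qm M p q) = qm (M.map f) (mW f p) (mW f q) := by
  have hadj : (M.map f).adjugate = M.adjugate.map f := (RingHom.map_adjugate f M).symm
  refine Prod.ext ?_ (funext fun i => ?_)
  · simp only [mW, qm, map_sub, map_mul, hadj, dotProduct, Matrix.mulVec, map_sum, Matrix.map_apply]
  · simp only [mW, qm, map_add, map_mul, Pi.add_apply, Pi.smul_apply, smul_eq_mul, Matrix.mulVec,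
      dotProduct, map_sum, Matrix.map_apply]
    congr 1
    refine Finset.sum_congr rfl fun j _ => ?_
    congr 1
    rw [cross_apply, cross_apply]
    fin_cases j <;> simp

end naturality

section square
variable {R : Type*} [CommRing R] (N : Matrix (Fin 3) (Fin 3) R)

/-- the operator `∑ u_k γ_k` -/
def Wop (t : R) (u : Fin 3 → R) : W4 R →ₗ[R] W4 R := t • lmul N (0, N.mulVec u)

theorem Wop_apply (t : R) (u : Fin 3 → R) (v : W4 R) :
    Wop N t u v = t • qm N (0, N.mulVec u) v := rfl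

theorem qm_self (u : Fin 3 → R) :
    qm N (0, N.mulVec u) (0, N.mulVec u) = (-(N.det * (u ⬝ᵥ N.mulVec u))) • ((1 : R), (0 : Fin 3 → R)) := by
  have h1 : N.adjugate.mulVec (N.mulVec u) = N.det • u := by
    rw [Matrix.mulVec_mulVec, Matrix.adjugate_mul, Matrix.smul_mulVec, Matrix.one_mulVec]
  refine Prod.ext ?_ ?_
  · simp only [qm, h1, dotProduct_smul, Prod.smul_mk, smul_eq_mul, mul_zero, zero_sub, mul_one]
    rw [dotProduct_comm]
  · simp only [qm, cross_self, Matrix.mulVec_zero, zero_smul, smul_zero, add_zero, Prod.smul_mk]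

theorem Wop_sq (hN : N.IsSymm) {t : R} (ht : t ^ 2 * N.det = 1) (u : Fin 3 → R) (v : W4 R) :
    Wop N t u (Wop N t u v) = (-(u ⬝ᵥ N.mulVec u)) • v := by
  rw [Wop_apply, Wop_apply, qm_smul_right, ← qm_assoc N hN, qm_self, qm_smul_left, qm_one,
    smul_smul, smul_smul]
  congr 1
  linear_combination (-(u ⬝ᵥ N.mulVec u)) * ht

end square

/-- coefficients of a ternary quadratic form -/
theorem exists_coef {f : P3} (hf : f.IsHomogeneous 2) :
    ∃ a : Fin 3 → Fin 3 → ℂ, f = ∑ i, ∑ j, C (a i j) * (X i * X j) := by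
  have h1 : ∀ i, (pderiv i f).IsHomogeneous 1 := fun i => hf.pderiv
  have h2 : ∀ i j, (pderiv j (pderiv i f)).IsHomogeneous 0 := fun i j => (h1 i).pderiv
  have h3 : ∀ i j, pderiv j (pderiv i f) = C (coeff 0 (pderiv j (pderiv i f))) := by
    intro i j
    apply totalDegree_eq_zero_iff_eq_C.1
    exact Nat.le_zero.1 (h2 i j).totalDegree_le
  have e1 : ∑ i, X i * pderiv i f = 2 • f := hf.sum_X_mul_pderiv
  have e2 : ∀ i, ∑ j, X j * pderiv j (pderiv i f) = 1 • pderiv i f :=
    fun i => (h1 i).sum_X_mul_pderiv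
  refine ⟨fun i j => (1 / 2) * coeff 0 (pderiv j (pderiv i f)), ?_⟩
  have h4 : f = C (1 / 2) * ∑ i, X i * pderiv i f := by
    rw [e1, two_nsmul, ← two_mul, ← mul_assoc]
    have : (2 : P3) = C 2 := (map_ofNat C 2).symm
    rw [this, ← C_mul]
    norm_num
  have h5 : ∑ i, X i * pderiv i f = ∑ i, ∑ j, C (coeff 0 (pderiv j (pderiv i f))) *
      (X i * X j) := by
    refine Finset.sum_congr rfl fun i _ => ?_
    have e3 : X i * pderiv i f = ∑ j, X i * (X j * pderiv j (pderiv i f)) := by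
      rw [← Finset.mul_sum, e2 i, one_smul]
    rw [e3]
    refine Finset.sum_congr rfl fun j _ => ?_
    rw [← h3 i j]
    ring
  conv_lhs => rw [h4, h5]
  rw [Finset.mul_sum]
  refine Finset.sum_congr rfl fun i _ => ?_
  rw [Finset.mul_sum]
  refine Finset.sum_congr rfl fun j _ => ?_
  rw [C_mul]
  ring

section generic
variable {K : Type} [Field K] [Algebra ℂ K] [Algebra FU (EK K)]

/-- span over `FU` of the image of a complex subspace of `K` -/
noncomputable def bc1 (U : Submodule ℂ K) : Submodule FU (EK K) :=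
  Submodule.span FU ((algebraMap K (EK K)) '' (U : Set K))

/-- span over `FU` of the image of a complex subspace of `W4 K` -/
noncomputable def bcW (U : Submodule ℂ (W4 K)) : Submodule FU (W4 (EK K)) :=
  Submodule.span FU (mW (algebraMap K (EK K)) '' (U : Set (W4 K)))

theorem bc1_eq (U : Submodule ℂ K) : bc1 U =
    (bc FU (EK K) (U.map (LinearEquiv.funUnique Unit ℂ K).symm.toLinearMap)).map
      (LinearEquiv.funUnique Unit FU (EK K)).toLinearMap := by
  rw [bc1, bc, Submodule.map_span]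
  congr 1
  rw [Submodule.map_coe, Set.image_image, Set.image_image]
  rfl

theorem bcW_eq (U : Submodule ℂ (W4 K)) :
    (bcW U).map (Fin.consLinearEquiv FU (fun _ : Fin 4 => EK K)).toLinearMap =
    bc FU (EK K) (U.map (Fin.consLinearEquiv ℂ (fun _ : Fin 4 => K)).toLinearMap) := by
  rw [bcW, bc, Submodule.map_span]
  congr 1
  rw [Submodule.map_coe, Set.image_image, Set.image_image]
  apply Set.image_congr
  intro p _
  funext i
  refine Fin.cases ?_ (fun i => ?_) i
  · rfl
  · rfl

theorem bc1_mono {U U' : Submodule ℂ K} (h : U ≤ U') : bc1 U ≤ bc1 U' :=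
  Submodule.span_mono (Set.image_mono h)

theorem bcW_mono {U U' : Submodule ℂ (W4 K)} (h : U ≤ U') : bcW U ≤ bcW U' :=
  Submodule.span_mono (Set.image_mono h)

theorem mem_bc1 {U : Submodule ℂ K} {a : K} (ha : a ∈ U) : algebraMap K (EK K) a ∈ bc1 U :=
  Submodule.subset_span ⟨a, ha, rfl⟩

theorem mem_bcW {U : Submodule ℂ (W4 K)} {a : W4 K} (ha : a ∈ U) :
    mW (algebraMap K (EK K)) a ∈ bcW U :=
  Submodule.subset_span ⟨a, ha, rfl⟩

/-- multiplication by an element of `K` -/
theorem bc1_mul {U U' : Submodule ℂ K} {b : K} (h : ∀ a ∈ U, b * a ∈ U') {z : EK K}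
    (hz : z ∈ bc1 U) : algebraMap K (EK K) b * z ∈ bc1 U' := by
  induction hz using Submodule.span_induction with
  | mem x hx =>
    obtain ⟨a, ha, rfl⟩ := hx
    rw [← map_mul]
    exact mem_bc1 (h a ha)
  | zero => rw [mul_zero]; exact Submodule.zero_mem _
  | add x y _ _ hx hy => rw [mul_add]; exact Submodule.add_mem _ hx hy
  | smul c x _ hx => rw [mul_smul_comm]; exact Submodule.smul_mem _ _ hx

section comp
variable (hcomp : ∀ f : MvPolynomial (Fin 3) ℂ,
    algebraMap (FractionRing (MvPolynomial (Fin 3) ℂ)) (FractionRing (MvPolynomial (Fin 3) K))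
      (algebraMap _ _ f) = algebraMap (MvPolynomial (Fin 3) K) _ (f.map (algebraMap ℂ K)))
include hcomp

theorem bc1_fin (U : Submodule ℂ K) [FiniteDimensional ℂ U] :
    FiniteDimensional FU (bc1 U) := by
  rw [bc1_eq]
  have := bc_fin hcomp (U.map (LinearEquiv.funUnique Unit ℂ K).symm.toLinearMap)
  infer_instance

theorem bc1_finrank (U : Submodule ℂ K) [FiniteDimensional ℂ U] :
    finrank FU (bc1 U) = finrank ℂ U := by
  rw [bc1_eq, LinearEquiv.finrank_map_eq, bc_finrank hcomp, LinearEquiv.finrank_map_eq]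

theorem bcW_fin (U : Submodule ℂ (W4 K)) [FiniteDimensional ℂ U] :
    FiniteDimensional FU (bcW U) := by
  have h := bc_fin hcomp (U.map (Fin.consLinearEquiv ℂ (fun _ : Fin 4 => K)).toLinearMap)
  rw [← bcW_eq] at h
  exact LinearEquiv.finiteDimensional (LinearEquiv.submoduleMap
    (Fin.consLinearEquiv FU (fun _ : Fin 4 => EK K)) (bcW U)).symm

theorem bcW_finrank (U : Submodule ℂ (W4 K)) [FiniteDimensional ℂ U] :
    finrank FU (bcW U) = finrank ℂ U := by
  rw [← LinearEquiv.finrank_map_eq (Fin.consLinearEquiv FU (fun _ : Fin 4 => EK K)) (bcW U)]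
  rw [← LinearEquiv.finrank_map_eq (Fin.consLinearEquiv ℂ (fun _ : Fin 4 => K)) U]
  rw [← bc_finrank hcomp, bcW_eq]

theorem bc1_inf (U U' : Submodule ℂ K) [FiniteDimensional ℂ U] [FiniteDimensional ℂ U'] :
    bc1 (U ⊓ U') = bc1 U ⊓ bc1 U' := by
  rw [bc1_eq, bc1_eq, bc1_eq, Submodule.map_inf _ (LinearEquiv.injective _), bc_inf hcomp,
    Submodule.map_inf _ (LinearEquiv.injective _)]

/-- saturation -/
theorem bc1_sat {U U' V : Submodule ℂ K} [FiniteDimensional ℂ U] [FiniteDimensional ℂ U']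
    {b : K} (hb : b ≠ 0) (h : ∀ a ∈ U, b * a ∈ U' → a ∈ V) {z : EK K} (hz : z ∈ bc1 U)
    (hz' : algebraMap K (EK K) b * z ∈ bc1 U') : z ∈ bc1 V := by
  have h1 : algebraMap K (EK K) b * z ∈ bc1 (U.map (LinearMap.mulLeft ℂ b)) :=
    bc1_mul (fun a ha => Submodule.mem_map.2 ⟨a, ha, rfl⟩) hz
  have h2 : algebraMap K (EK K) b * z ∈ bc1 (U.map (LinearMap.mulLeft ℂ b) ⊓ U') := by
    rw [bc1_inf hcomp]
    exact ⟨h1, hz'⟩
  have h3 := bc1_mul (U' := V) (b := b⁻¹) (by
    intro a ha
    obtain ⟨⟨c, hc, hca⟩, ha2⟩ := ha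
    change b * c = a at hca
    subst hca
    rw [inv_mul_cancel_left₀ hb]
    exact h c hc ha2) h2
  rw [map_inv₀, inv_mul_cancel_left₀] at h3
  · exact h3
  · intro h0
    apply hb
    exact (map_eq_zero (algebraMap K (EK K))).1 h0

end comp

end generic

section core

theorem four_sum {R : Type*} [AddCommMonoid R] (f : Fin 3 → Fin 3 → Fin 3 → Fin 3 → R) :
    ∑ i, ∑ j, ∑ k, ∑ l, f i j k l = ∑ k, ∑ l, ∑ i, ∑ j, f i j k l := by
  calc ∑ i, ∑ j, ∑ k, ∑ l, f i j k l = ∑ i, ∑ k, ∑ j, ∑ l, f i j k l :=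
        Finset.sum_congr rfl fun i _ => Finset.sum_comm
    _ = ∑ k, ∑ i, ∑ j, ∑ l, f i j k l := Finset.sum_comm
    _ = ∑ k, ∑ i, ∑ l, ∑ j, f i j k l :=
        Finset.sum_congr rfl fun k _ => Finset.sum_congr rfl fun i _ => Finset.sum_comm
    _ = ∑ k, ∑ l, ∑ i, ∑ j, f i j k l := Finset.sum_congr rfl fun k _ => Finset.sum_comm

theorem quad_swap {R : Type*} [CommRing R] (a : Fin 3 → Fin 3 → Fin 3 → Fin 3 → R)
    (U z : Fin 3 → R) :
    ∑ i, ∑ j, (∑ k, ∑ l, U k * U l * a k l i j) * (z i * z j) =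
      ∑ k, ∑ l, U k * U l * ∑ i, ∑ j, a k l i j * (z i * z j) := by
  simp only [Finset.sum_mul, Finset.mul_sum]
  rw [four_sum]
  refine Finset.sum_congr rfl fun k _ => Finset.sum_congr rfl fun l _ =>
    Finset.sum_congr rfl fun i _ => Finset.sum_congr rfl fun j _ => ?_
  ring

theorem rank_one {K : Type*} [Field K] (h2 : (2 : K) ≠ 0) (N : Matrix (Fin 3) (Fin 3) K)
    (hN : N.IsSymm) (c : Fin 3 → K)
    (h : ∀ z : Fin 3 → K, (∑ k, z k * c k) ^ 2 + ∑ k, z k * ∑ l, N k l * z l = 0) :
    N.det = 0 := by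
  have s10 : N 1 0 = N 0 1 := hN.apply 0 1
  have s20 : N 2 0 = N 0 2 := hN.apply 0 2
  have s21 : N 2 1 = N 1 2 := hN.apply 1 2
  have e0 := h ![1, 0, 0]
  have e1 := h ![0, 1, 0]
  have e2 := h ![0, 0, 1]
  have e01 := h ![1, 1, 0]
  have e02 := h ![1, 0, 1]
  have e12 := h ![0, 1, 1]
  simp [Fin.sum_univ_three, s10, s20, s21] at e0 e1 e2 e01 e02 e12
  have n0 : N 0 0 = - (c 0 * c 0) := by linear_combination e0
  have n1 : N 1 1 = - (c 1 * c 1) := by linear_combination e1
  have n2 : N 2 2 = - (c 2 * c 2) := by linear_combination e2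
  have n01 : N 0 1 = - (c 0 * c 1) := by
    apply mul_left_cancel₀ h2
    linear_combination e01 - e0 - e1
  have n02 : N 0 2 = - (c 0 * c 2) := by
    apply mul_left_cancel₀ h2
    linear_combination e02 - e0 - e2
  have n12 : N 1 2 = - (c 1 * c 2) := by
    apply mul_left_cancel₀ h2
    linear_combination e12 - e1 - e2
  rw [Matrix.det_fin_three, s10, s20, s21, n0, n1, n2, n01, n02, n12]
  ring

theorem Wop_mW {K L : Type*} [Field K] [Field L] (f : K →+* L) (N : Matrix (Fin 3) (Fin 3) K)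
    (t : K) (u : Fin 3 → L) (v : W4 K) :
    Wop (N.map f) (f t) u (mW f v) = ∑ k, u k • mW f (t • qm N (0, fun i => N i k) v) := by
  have h1 : ((0 : L), (N.map f).mulVec u) = ∑ k, u k • ((0 : L), fun i => f (N i k)) := by
    refine Prod.ext ?_ (funext fun i => ?_)
    · simp [Prod.fst_sum]
    · simp only [Prod.snd_sum, Prod.smul_snd, Finset.sum_apply, Pi.smul_apply, smul_eq_mul,
        Matrix.mulVec, dotProduct, Matrix.map_apply]
      exact Finset.sum_congr rfl fun k _ => mul_comm _ _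
  rw [Wop_apply]
  have h2 : qm (N.map f) (0, (N.map f).mulVec u) (mW f v) =
      ∑ k, u k • qm (N.map f) ((0 : L), fun i => f (N i k)) (mW f v) := by
    have := congrArg (rmul (N.map f) (mW f v)) h1
    rw [map_sum] at this
    simp only [map_smul] at this
    exact this
  rw [h2, Finset.smul_sum]
  refine Finset.sum_congr rfl fun k _ => ?_
  rw [mW_smul, mW_qm, smul_comm]
  congr 3
  refine Prod.ext ?_ rfl
  simp [mW]

end core

end Pool.Agent.Helper5.OS
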