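import Mathlib
import Pool.Agent.Helper5.OS.Sec
import Pool.Agent.Helper89.OS.St.X12

/-!
Piece X13, algebraic core: from a filtered module of the right growth to a section.
-/

namespace Pool.Agent.Helper5.OS

open MvPolynomial Pool.Agent.Helper29.HP Module Pool.Agent.Helper89.OS

section span
variable {K : Type} [Field K] [Algebra ℂ K] [Algebra FU (EK K)]

theorem smul_bcW {U : Submodule ℂ K} {V : Submodule ℂ (W4 K)} {v : W4 K}
    (h : ∀ a ∈ U, a • v ∈ V) {z : EK K} (hz : z ∈ bc1 U) :
    z • mW (algebraMap K (EK K)) v ∈ bcW V := by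
  induction hz using Submodule.span_induction with
  | mem x hx =>
    obtain ⟨a, ha, rfl⟩ := hx
    rw [← mW_smul]
    exact mem_bcW (h a ha)
  | zero => rw [zero_smul]; exact Submodule.zero_mem _
  | add x y _ _ hx hy => rw [add_smul]; exact Submodule.add_mem _ hx hy
  | smul c x _ hx => rw [smul_assoc]; exact Submodule.smul_mem _ _ hx

/-- an `E`-linear map on `bcW` -/
theorem map_bcW {U V : Submodule ℂ (W4 K)} (Φ : W4 (EK K) →ₗ[EK K] W4 (EK K))
    (h : ∀ v ∈ U, Φ (mW (algebraMap K (EK K)) v) ∈ bcW V) {z : W4 (EK K)} (hz : z ∈ bcW U) :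
    Φ z ∈ bcW V := by
  induction hz using Submodule.span_induction with
  | mem x hx =>
    obtain ⟨a, ha, rfl⟩ := hx
    exact h a ha
  | zero => rw [map_zero]; exact Submodule.zero_mem _
  | add x y _ _ hx hy => rw [map_add]; exact Submodule.add_mem _ hx hy
  | smul c x _ hx =>
    rw [← algebraMap_smul (EK K) c x, map_smul, algebraMap_smul]
    exact Submodule.smul_mem _ _ hx

omit [Algebra ℂ K] [Algebra FU (EK K)] in
theorem mW_ne_zero {v : W4 K} (hv : v ≠ 0) : mW (algebraMap K (EK K)) v ≠ 0 := by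
  intro h
  apply hv
  have h1 := congrArg Prod.fst h
  have h2 := congrArg Prod.snd h
  refine Prod.ext ?_ (funext fun i => ?_)
  · exact (map_eq_zero (algebraMap K (EK K))).1 h1
  · exact (map_eq_zero (algebraMap K (EK K))).1 (congrFun h2 i)

end span

section indep
variable {K : Type} [Field K]

/-- the variables as rational functions -/
noncomputable def uE (K : Type) [Field K] (k : Fin 3) : EK K :=
  algebraMap (MvPolynomial (Fin 3) K) (EK K) (X k)

theorem lin_of_coord {lam : EK K} {p0 : K} (hp : p0 ≠ 0) {p : Fin 3 → K}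
    (h : lam * algebraMap K (EK K) p0 = ∑ k, uE K k * algebraMap K (EK K) (p k)) :
    ∃ c : Fin 3 → K, lam = ∑ k, uE K k * algebraMap K (EK K) (c k) := by
  refine ⟨fun k => p k / p0, ?_⟩
  have h0 : algebraMap K (EK K) p0 ≠ 0 := by
    intro h1
    exact hp ((map_eq_zero (algebraMap K (EK K))).1 h1)
  apply mul_right_cancel₀ h0
  rw [h, Finset.sum_mul]
  refine Finset.sum_congr rfl fun k _ => ?_
  rw [mul_assoc, ← map_mul, div_mul_cancel₀ _ hp]

theorem algK (a : K) : algebraMap K (EK K) a =
    algebraMap (MvPolynomial (Fin 3) K) (EK K) (C a) := by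
  rw [IsScalarTower.algebraMap_apply K (MvPolynomial (Fin 3) K) (EK K)]
  rfl

/-- `v` is not an eigenvector of the generic operator -/
theorem Wop_ne (h2 : (2 : K) ≠ 0) (N : Matrix (Fin 3) (Fin 3) K) (hN : N.IsSymm) {t : K}
    (ht : t ^ 2 * N.det = 1) {v : W4 K} (hv : v ≠ 0) (lam : EK K)
    (h : Wop (N.map (algebraMap K (EK K))) (algebraMap K (EK K) t) (uE K)
      (mW (algebraMap K (EK K)) v) = lam • mW (algebraMap K (EK K)) v) : False := by
  have hd0 : N.det ≠ 0 := by
    intro h0
    rw [h0, mul_zero] at ht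
    exact zero_ne_one ht
  apply hd0
  -- lam is a linear form in the variables
  obtain ⟨c, hc⟩ : ∃ c : Fin 3 → K, lam = ∑ k, uE K k * algebraMap K (EK K) (c k) := by
    have h3 := h
    rw [Wop_mW] at h3
    by_cases hv1 : v.1 = 0
    · obtain ⟨i, hi⟩ : ∃ i, v.2 i ≠ 0 := by
        by_contra hcon
        push Not at hcon
        exact hv (Prod.ext hv1 (funext hcon))
      have h4 := congrFun (congrArg Prod.snd h3) i
      simp only [Prod.snd_sum, Prod.smul_snd, Finset.sum_apply, Pi.smul_apply, smul_eq_mul] at h4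
      exact lin_of_coord hi h4.symm
    · have h4 := congrArg Prod.fst h3
      simp only [Prod.fst_sum, Prod.smul_fst, smul_eq_mul] at h4
      exact lin_of_coord hv1 h4.symm
  -- its square
  have hNm : (N.map (algebraMap K (EK K))).IsSymm := hN.map _
  have hdet : (N.map (algebraMap K (EK K))).det = algebraMap K (EK K) N.det :=
    (RingHom.map_det (algebraMap K (EK K)) N).symm
  have ht' : (algebraMap K (EK K) t) ^ 2 * (N.map (algebraMap K (EK K))).det = 1 := by
    rw [hdet, ← map_pow, ← map_mul, ht, map_one]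
  have h5 := Wop_sq (N.map (algebraMap K (EK K))) hNm ht' (uE K) (mW (algebraMap K (EK K)) v)
  rw [h, map_smul, h, smul_smul] at h5
  have h6 : lam * lam = -(uE K ⬝ᵥ (N.map (algebraMap K (EK K))).mulVec (uE K)) := by
    rw [← sub_eq_zero, ← sub_smul] at h5
    rcases smul_eq_zero.1 h5 with h7 | h7
    · exact sub_eq_zero.1 h7
    · exact absurd h7 (mW_ne_zero hv)
  -- the polynomial identity
  have h8 : (∑ k, X k * C (c k)) ^ 2 + ∑ k, X k * ∑ l, C (N k l) * X l =
      (0 : MvPolynomial (Fin 3) K) := by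
    apply IsFractionRing.injective (MvPolynomial (Fin 3) K) (EK K)
    rw [map_zero, map_add, map_pow]
    simp only [map_sum, map_mul, ← algK]
    have e1 : ∑ k, algebraMap (MvPolynomial (Fin 3) K) (EK K) (X k) * algebraMap K (EK K) (c k)
        = lam := hc.symm
    have e2 : ∑ k, algebraMap (MvPolynomial (Fin 3) K) (EK K) (X k) *
        ∑ l, algebraMap K (EK K) (N k l) * algebraMap (MvPolynomial (Fin 3) K) (EK K) (X l) =
        uE K ⬝ᵥ (N.map (algebraMap K (EK K))).mulVec (uE K) := rfl
    rw [e1, e2]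
    linear_combination h6
  apply rank_one h2 N hN c
  intro z
  have h9 := congrArg (eval z) h8
  simpa using h9

end indep

section filt
variable {K : Type} [Field K] [Algebra ℂ K] [Algebra FU (EK K)]

/-- the map `(a, b) ↦ a y + b w` -/
noncomputable def Th (A B : Submodule FU (EK K)) (y w : W4 (EK K)) :
    (A × B) →ₗ[FU] W4 (EK K) :=
  (((LinearMap.toSpanSingleton (EK K) (W4 (EK K)) y).restrictScalars FU).comp A.subtype).coprod
    (((LinearMap.toSpanSingleton (EK K) (W4 (EK K)) w).restrictScalars FU).comp B.subtype)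

omit [Algebra ℂ K] in
theorem Th_apply (A B : Submodule FU (EK K)) (y w : W4 (EK K)) (p : A × B) :
    Th A B y w p = (p.1 : EK K) • y + (p.2 : EK K) • w := rfl

omit [Algebra ℂ K] in
theorem mem_Th {A B : Submodule FU (EK K)} {y w z : W4 (EK K)} :
    z ∈ LinearMap.range (Th A B y w) ↔ ∃ a ∈ A, ∃ b ∈ B, a • y + b • w = z := by
  constructor
  · rintro ⟨p, rfl⟩
    exact ⟨p.1, p.1.2, p.2, p.2.2, rfl⟩
  · rintro ⟨a, ha, b, hb, rfl⟩
    exact ⟨(⟨a, ha⟩, ⟨b, hb⟩), rfl⟩

omit [Algebra ℂ K] in
theorem finrank_Th {A B : Submodule FU (EK K)} [FiniteDimensional FU A] [FiniteDimensional FU B]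
    {y w : W4 (EK K)} (h : ∀ a b : EK K, a • y + b • w = 0 → a = 0 ∧ b = 0) :
    finrank FU (LinearMap.range (Th A B y w)) = finrank FU A + finrank FU B := by
  rw [LinearMap.finrank_range_of_inj, Module.finrank_prod]
  rw [injective_iff_map_eq_zero]
  intro p hp
  rw [Th_apply] at hp
  obtain ⟨h1, h2⟩ := h _ _ hp
  exact Prod.ext (Subtype.ext h1) (Subtype.ext h2)

end filt

theorem core {K : Type} [Field K] [Algebra ℂ K] (N : Matrix (Fin 3) (Fin 3) K) (hNs : N.IsSymm)
    (t : K) (ht : t ^ 2 * N.det = 1) (x y : K) (M : Matrix (Fin 3) (Fin 3) P3)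
    (hM : ∀ k l, (M k l).IsHomogeneous 2) (hN : ∀ k l, N k l = aeval ![1, x, y] (M k l))
    (L : ℤ → Submodule ℂ K) (hLm : Monotone L) (hLf : ∀ n, FiniteDimensional ℂ (L n))
    (hLmul : ∀ i j a b, a ∈ L i → b ∈ L j → a * b ∈ L (i + j)) (hx : x ∈ L 1) (hy : y ∈ L 1)
    (h1 : (1 : K) ∈ L 0) (hx0 : x ≠ 0)
    (hsat : ∀ i n b, b ∈ L i → x * b ∈ L (n + 1) → b ∈ L n)
    (T : ℤ → Submodule ℂ (W4 K)) (hTm : Monotone T) (hTf : ∀ j, FiniteDimensional ℂ (T j))
    (hTs : ∀ i j b v, b ∈ L i → v ∈ T j → b • v ∈ T (i + j))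
    (hTg : ∀ j v, v ∈ T j → ∀ k, t • qm N (0, fun i => N i k) v ∈ T (j + 1))
    (d s τ j₁ : ℤ) (hd : Odd d) (hd0 : 0 < d) (hτ : Even τ)
    (hLd : ∀ n, j₁ ≤ n → (finrank ℂ (L n) : ℤ) = d * n + s)
    (hTd : ∀ j, j₁ ≤ j → (finrank ℂ (T j) : ℤ) = 2 * d * j + τ) :
    ∃ (x : Fin 3 → FU) (w : FU), ¬ (x = 0 ∧ w = 0) ∧
      w ^ 2 + ∑ k, ∑ l, algebraMap P3 FU (X k) * algebraMap P3 FU (X l) * aeval x (M k l) = 0 := by
  classical
  -- the embedding of the base field
  have hinjM : Function.Injective ((algebraMap (MvPolynomial (Fin 3) K) (EK K)).comp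
      (MvPolynomial.map (σ := Fin 3) (algebraMap ℂ K))) := by
    rw [RingHom.coe_comp]
    exact (IsFractionRing.injective (MvPolynomial (Fin 3) K) (EK K)).comp
      (MvPolynomial.map_injective _ (algebraMap ℂ K).injective)
  let _ : Algebra FU (EK K) := (IsFractionRing.lift (A := P3) (K := FU) hinjM).toAlgebra
  have hcomp : ∀ f : MvPolynomial (Fin 3) ℂ,
      algebraMap (FractionRing (MvPolynomial (Fin 3) ℂ)) (FractionRing (MvPolynomial (Fin 3) K))
      (algebraMap _ _ f) = algebraMap (MvPolynomial (Fin 3) K) _ (f.map (algebraMap ℂ K)) := by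
    intro f
    exact IsFractionRing.lift_algebraMap hinjM f
  have h2 : (2 : K) ≠ 0 := by
    have : algebraMap ℂ K 2 ≠ 0 := (map_ne_zero _).2 two_ne_zero
    rwa [map_ofNat] at this
  -- coefficients of the forms `M k l`
  choose a ha using fun k l => exists_coef (hM k l)
  set al : K →+* EK K := algebraMap K (EK K) with hal
  set xs : Fin 3 → K := ![1, x, y] with hxs
  have hNa : ∀ k l, N k l = ∑ i, ∑ j, algebraMap ℂ K (a k l i j) * (xs i * xs j) := by
    intro k l
    rw [hN]
    conv_lhs => rw [ha k l]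
    simp only [map_sum, map_mul, aeval_X, aeval_C]
  have hxsL : ∀ i, xs i ∈ L 1 := by
    intro i
    fin_cases i
    · exact hLm (by norm_num) h1
    · exact hx
    · exact hy
  have hN2 : ∀ k l, N k l ∈ L 2 := by
    intro k l
    rw [hNa]
    refine Submodule.sum_mem _ fun i _ => Submodule.sum_mem _ fun j _ => ?_
    rw [← Algebra.smul_def]
    exact Submodule.smul_mem _ _ (hLmul 1 1 _ _ (hxsL i) (hxsL j))
  -- the variables
  set u : Fin 3 → FU := fun k => algebraMap P3 FU (X k) with hu
  have huE : ∀ k, algebraMap FU (EK K) (u k) = uE K k := by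
    intro k
    have := hcomp (X k)
    rw [map_X] at this
    exact this
  have hcc : ∀ c : ℂ, algebraMap FU (EK K) (algebraMap ℂ FU c) = al (algebraMap ℂ K c) := by
    intro c
    have := hcomp (C c)
    rw [map_C] at this
    rw [hal, algK]
    exact this
  set Q : Matrix (Fin 3) (Fin 3) FU := fun i j =>
    ∑ k, ∑ l, u k * u l * algebraMap ℂ FU (a k l i j) with hQ
  -- the operators
  set N' : Matrix (Fin 3) (Fin 3) (EK K) := N.map al with hN'
  have hNm : N'.IsSymm := hNs.map _
  have hdet : N'.det = al N.det := (RingHom.map_det al N).symm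
  have ht' : (al t) ^ 2 * N'.det = 1 := by
    rw [hdet, ← map_pow, ← map_mul, ht, map_one]
  set W : W4 (EK K) →ₗ[EK K] W4 (EK K) := Wop N' (al t) (uE K) with hW
  have hWW : ∀ v, W (W v) = (-(uE K ⬝ᵥ N'.mulVec (uE K))) • v := fun v =>
    Wop_sq N' hNm ht' (uE K) v
  have hWm : ∀ v, W (mW al v) = ∑ k, u k • mW al (t • qm N (0, fun i => N i k) v) := by
    intro v
    rw [hW, hN', Wop_mW]
    refine Finset.sum_congr rfl fun k _ => ?_
    rw [← huE, algebraMap_smul]
  set ρ : EK K →ₐ[FU] Module.End FU (W4 (EK K)) := Algebra.lsmul FU FU (W4 (EK K)) with hρ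
  have hρa : ∀ (c : EK K) (v : W4 (EK K)), ρ c v = c • v := fun c v => rfl
  set WF : Module.End FU (W4 (EK K)) := W.restrictScalars FU with hWF
  have hWFa : ∀ v, WF v = W v := fun v => rfl
  have hops : (![1, ρ (al x), ρ (al y)] : Fin 3 → Module.End FU (W4 (EK K))) =
      fun i => ρ (al (xs i)) := by
    funext i
    fin_cases i
    · change (1 : Module.End FU (W4 (EK K))) = ρ (al 1)
      rw [map_one, map_one]
    · rfl
    · rfl
  have hquad : uE K ⬝ᵥ N'.mulVec (uE K) =
      ∑ i, ∑ j, algebraMap FU (EK K) (Q i j) * (al (xs i) * al (xs j)) := by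
    have e1 : ∀ i j, algebraMap FU (EK K) (Q i j) =
        ∑ k, ∑ l, uE K k * uE K l * al (algebraMap ℂ K (a k l i j)) := by
      intro i j
      rw [hQ]
      simp only [map_sum, map_mul, huE, hcc]
    simp only [e1]
    rw [quad_swap (fun k l i j => al (algebraMap ℂ K (a k l i j))) (uE K) (fun i => al (xs i))]
    simp only [dotProduct, Matrix.mulVec, hN', Matrix.map_apply, Finset.mul_sum, hNa, map_sum,
      map_mul]
    refine Finset.sum_congr rfl fun k _ => Finset.sum_congr rfl fun l _ => ?_
    rw [Finset.sum_mul, Finset.mul_sum]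
    refine Finset.sum_congr rfl fun i _ => ?_
    rw [Finset.sum_mul, Finset.mul_sum]
    refine Finset.sum_congr rfl fun j _ => ?_
    ring
  have hrel : WF * WF + ∑ i, ∑ j, Q i j •
      ((![1, ρ (al x), ρ (al y)] : Fin 3 → Module.End FU (W4 (EK K))) i *
      (![1, ρ (al x), ρ (al y)] : Fin 3 → Module.End FU (W4 (EK K))) j) = 0 := by
    rw [hops]
    apply LinearMap.ext
    intro v
    simp only [LinearMap.add_apply, Module.End.mul_apply, LinearMap.sum_apply,
      LinearMap.smul_apply, LinearMap.zero_apply, hρa, hWFa, hWW]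
    rw [hquad, neg_smul, neg_add_eq_zero, Finset.sum_smul]
    refine Finset.sum_congr rfl fun i _ => ?_
    rw [Finset.sum_smul]
    refine Finset.sum_congr rfl fun j _ => ?_
    rw [mul_smul, mul_smul, algebraMap_smul]
  -- a non-zero element
  have hy0 : ∃ c : ℤ, ∃ v ∈ T c, v ≠ 0 := by
    set j := max j₁ (1 + |τ|) with hj
    have e1 := hTd j (le_max_left _ _)
    have e2 : 1 + |τ| ≤ j := le_max_right _ _
    have e3 : 0 < (finrank ℂ (T j) : ℤ) := by
      rw [e1]
      have : -|τ| ≤ τ := neg_abs_le τ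
      have : 0 ≤ |τ| := abs_nonneg τ
      nlinarith
    have e4 : 0 < finrank ℂ (T j) := by exact_mod_cast e3
    have := Module.nontrivial_of_finrank_pos e4
    obtain ⟨v, hv⟩ := exists_ne (0 : T j)
    exact ⟨j, v, v.2, fun h => hv (Subtype.ext h)⟩
  obtain ⟨c, y0, hy0c, hy0n⟩ := hy0
  set Y := mW al y0 with hY
  have hYn : Y ≠ 0 := mW_ne_zero hy0n
  have hind : ∀ a b : EK K, a • Y + b • W Y = 0 → a = 0 ∧ b = 0 := by
    intro a b hab
    have hb : b = 0 := by
      by_contra hb
      apply Wop_ne h2 N hNs ht hy0n (-(b⁻¹ * a))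
      change W Y = _
      have : b • W Y = - (a • Y) := by
        rw [eq_neg_iff_add_eq_zero, add_comm]; exact hab
      rw [← inv_smul_smul₀ hb (W Y), this, smul_neg, smul_smul, neg_smul]
    rw [hb, zero_smul, add_zero] at hab
    rcases smul_eq_zero.1 hab with h | h
    · exact ⟨h, hb⟩
    · exact absurd h hYn
  have hLF := hLf
  have hTF := hTf
  have hLfin : ∀ n, FiniteDimensional FU (bc1 (L n)) := fun n => bc1_fin hcomp (L n)
  -- the odd point lemma
  obtain ⟨p, w, hpw, hpw0⟩ := odd_point (F := FU) (Y := W4 (EK K)) (ρ (al x)) (ρ (al y)) WF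
    (by
      change ρ (al x) * ρ (al y) = ρ (al y) * ρ (al x)
      rw [← map_mul, mul_comm, map_mul])
    (by
      apply LinearMap.ext
      intro v
      simp only [Module.End.mul_apply, hρa, hWFa, map_smul])
    (by
      apply LinearMap.ext
      intro v
      simp only [Module.End.mul_apply, hρa, hWFa, map_smul])
    Q hrel (fun j => bcW (T j))
    (fun j => LinearMap.range (Th (bc1 (L (j - c))) (bc1 (L (j - c - 1))) Y (W Y)))
    (fun i j hij => bcW_mono (hTm hij))
    (by
      intro i j hij z hz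
      rw [mem_Th] at hz ⊢
      obtain ⟨a, ha, b, hb, rfl⟩ := hz
      exact ⟨a, bc1_mono (hLm (by omega)) ha, b, bc1_mono (hLm (by omega)) hb, rfl⟩)
    (by
      intro j z hz
      rw [mem_Th] at hz
      obtain ⟨a, ha, b, hb, rfl⟩ := hz
      refine Submodule.add_mem _ ?_ ?_
      · refine smul_bcW (U := L (j - c)) ?_ ha
        intro a' ha'
        have := hTs _ _ _ _ ha' hy0c
        rwa [sub_add_cancel] at this
      · rw [← map_smul]
        refine map_bcW (U := T (j - 1)) W ?_ ?_
        · intro v hv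
          rw [hWm]
          refine Submodule.sum_mem _ fun k _ => Submodule.smul_mem _ _ (mem_bcW ?_)
          have := hTg _ _ hv k
          rwa [sub_add_cancel] at this
        · refine smul_bcW (U := L (j - c - 1)) ?_ hb
          intro a' ha'
          have := hTs _ _ _ _ ha' hy0c
          have e : j - c - 1 + c = j - 1 := by ring
          rwa [e] at this)
    (fun j => bcW_fin hcomp (T j))
    (by
      intro j z hz
      rw [hρa]
      refine map_bcW (U := T j) (al x • LinearMap.id) ?_ hz
      intro v hv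
      rw [LinearMap.smul_apply, LinearMap.id_apply, ← mW_smul]
      apply mem_bcW
      rw [add_comm j 1]
      exact hTs _ _ _ _ hx hv)
    (by
      intro j z hz
      rw [hρa]
      refine map_bcW (U := T j) (al y • LinearMap.id) ?_ hz
      intro v hv
      rw [LinearMap.smul_apply, LinearMap.id_apply, ← mW_smul]
      apply mem_bcW
      rw [add_comm j 1]
      exact hTs _ _ _ _ hy hv)
    (by
      intro j z hz
      rw [hWFa]
      refine map_bcW (U := T j) W ?_ hz
      intro v hv
      rw [hWm]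
      exact Submodule.sum_mem _ fun k _ => Submodule.smul_mem _ _ (mem_bcW (hTg _ _ hv k)))
    (by
      intro j z hz
      rw [mem_Th] at hz ⊢
      obtain ⟨a, ha, b, hb, rfl⟩ := hz
      refine ⟨al x * a, bc1_mul (fun a' ha' => ?_) ha, al x * b,
        bc1_mul (fun a' ha' => ?_) hb, ?_⟩
      · have := hLmul _ _ _ _ hx ha'
        have e : 1 + (j - c) = j + 1 - c := by ring
        rwa [e] at this
      · have := hLmul _ _ _ _ hx ha'
        have e : 1 + (j - c - 1) = j + 1 - c - 1 := by ring
        rwa [e] at this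
      · rw [hρa, smul_add, smul_smul, smul_smul])
    (by
      intro j z hz
      rw [mem_Th] at hz ⊢
      obtain ⟨a, ha, b, hb, rfl⟩ := hz
      refine ⟨al y * a, bc1_mul (fun a' ha' => ?_) ha, al y * b,
        bc1_mul (fun a' ha' => ?_) hb, ?_⟩
      · have := hLmul _ _ _ _ hy ha'
        have e : 1 + (j - c) = j + 1 - c := by ring
        rwa [e] at this
      · have := hLmul _ _ _ _ hy ha'
        have e : 1 + (j - c - 1) = j + 1 - c - 1 := by ring
        rwa [e] at this
      · rw [hρa, smul_add, smul_smul, smul_smul])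
    (by
      intro j z hz
      rw [mem_Th] at hz ⊢
      obtain ⟨a, ha, b, hb, rfl⟩ := hz
      refine ⟨-(uE K ⬝ᵥ N'.mulVec (uE K)) * b, ?_, a, ?_, ?_⟩
      · rw [neg_mul]
        apply Submodule.neg_mem
        rw [dotProduct, Finset.sum_mul]
        refine Submodule.sum_mem _ fun k _ => ?_
        rw [Matrix.mulVec, dotProduct, Finset.mul_sum, Finset.sum_mul]
        refine Submodule.sum_mem _ fun l _ => ?_
        have e : uE K k * (N' k l * uE K l) * b = (u k * u l) • (al (N k l) * b) := by
          rw [Algebra.smul_def, map_mul, huE, huE, hN', Matrix.map_apply]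
          ring
        rw [e]
        refine Submodule.smul_mem _ _ (bc1_mul (fun a' ha' => ?_) hb)
        have := hLmul _ _ _ _ (hN2 k l) ha'
        have e : 2 + (j - c - 1) = j + 1 - c := by ring
        rwa [e] at this
      · have e : j + 1 - c - 1 = j - c := by ring
        rw [e]
        exact ha
      · rw [hWFa, map_add, map_smul, map_smul, hWW, smul_smul, add_comm, mul_comm])
    (by
      intro i j z hz hz'
      rw [mem_Th] at hz
      obtain ⟨a, ha, b, hb, rfl⟩ := hz
      rw [mem_Th] at hz'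
      obtain ⟨a', ha', b', hb', hab⟩ := hz'
      rw [hρa, smul_add, smul_smul, smul_smul] at hab
      have e0 : (al x * a - a') • Y + (al x * b - b') • W Y = 0 := by
        rw [sub_smul, sub_smul]
        have : (al x * a) • Y + (al x * b) • W Y - (a' • Y + b' • W Y) = 0 := by
          rw [hab, sub_self]
        rw [← this]
        abel
      obtain ⟨e1, e2⟩ := hind _ _ e0
      rw [sub_eq_zero] at e1 e2
      rw [mem_Th]
      refine ⟨a, ?_, b, ?_, rfl⟩
      · refine bc1_sat hcomp hx0 (U := L (i - c)) (U' := L (j + 1 - c)) ?_ ha (by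
          change al x * a ∈ _
          rw [e1]; exact ha')
        intro a' h1 h2
        apply hsat (i - c) (j - c) a' h1
        have e : j - c + 1 = j + 1 - c := by ring
        rw [e]
        exact h2
      · refine bc1_sat hcomp hx0 (U := L (i - c - 1)) (U' := L (j + 1 - c - 1)) ?_ hb (by
          change al x * b ∈ _
          rw [e2]; exact hb')
        intro a' h1 h2
        apply hsat (i - c - 1) (j - c - 1) a' h1
        have e : j - c - 1 + 1 = j + 1 - c - 1 := by ring
        rw [e]
        exact h2)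
    (τ + 2 * d * c + d - 2 * s) (max j₁ (j₁ + c + 1))
    (by
      obtain ⟨r, hr⟩ := hd
      obtain ⟨r', hr'⟩ := hτ
      exact ⟨r' + d * c + r - s, by rw [hr', hr]; ring⟩)
    (by
      intro j hj
      have h3 : j₁ ≤ j := le_trans (le_max_left _ _) hj
      have h4 : j₁ + c + 1 ≤ j := le_trans (le_max_right _ _) hj
      rw [finrank_Th hind, bcW_finrank hcomp, bc1_finrank hcomp, bc1_finrank hcomp]
      push_cast
      rw [hTd j h3, hLd _ (by omega), hLd _ (by omega)]
      ring)
  refine ⟨p, w, hpw, ?_⟩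
  rw [← hpw0]
  congr 1
  have e3 : ∀ k l, aeval p (M k l) = ∑ i, ∑ j, algebraMap ℂ FU (a k l i j) * (p i * p j) := by
    intro k l
    conv_lhs => rw [ha k l]
    simp only [map_sum, map_mul, aeval_X, aeval_C]
  rw [hQ]
  simp only [e3]
  exact (quad_swap (fun k l i j => algebraMap ℂ FU (a k l i j)) u p).symm

end Pool.Agent.Helper5.OS
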